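import Pool.Agent.H375R3.FP.Stmts

/-! # H375-FP task MART: one step martingale inequality in `L^(2k)` (helper471) -/

set_option autoImplicit false

namespace H375.FP

namespace MartAux

open Finset

/-- scalar recursion -/
lemma rec_aux (u v : ℝ) (hu : 0 ≤ u) (h1 : 0 ≤ u + v) (h2 : 0 ≤ u - v) (k : ℕ) :
    0 ≤ (u + v) ^ k + (u - v) ^ k ∧ 0 ≤ v * ((u + v) ^ k - (u - v) ^ k) ∧
    u * (v * ((u + v) ^ k - (u - v) ^ k)) ≤ k * v ^ 2 * ((u + v) ^ k + (u - v) ^ k) := by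
  induction k with
  | zero => simp
  | succ k ih =>
    obtain ⟨hA, hE, hI⟩ := ih
    set p := (u + v) ^ k with hp
    set q := (u - v) ^ k with hq
    have e1 : (u + v) ^ (k + 1) + (u - v) ^ (k + 1) = u * (p + q) + v * (p - q) := by
      rw [pow_succ, pow_succ]; ring
    have e2 : v * ((u + v) ^ (k + 1) - (u - v) ^ (k + 1)) =
        u * (v * (p - q)) + v ^ 2 * (p + q) := by
      rw [pow_succ, pow_succ]; ring
    have hv2 := sq_nonneg v
    have huA : 0 ≤ u * (p + q) := mul_nonneg hu hA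
    refine ⟨by rw [e1]; positivity, by rw [e2]; positivity, ?_⟩
    rw [e1, e2]
    push_cast
    have i1 : u * (u * (v * (p - q))) ≤ u * (k * v ^ 2 * (p + q)) := mul_le_mul_of_nonneg_left hI hu
    have i2 : 0 ≤ ((k : ℝ) + 1) * v ^ 2 * (v * (p - q)) := by positivity
    nlinarith

lemma rec_bound (u v M : ℝ) (K : ℕ) (hu : 0 ≤ u) (h1 : 0 ≤ u + v) (h2 : 0 ≤ u - v)
    (hM0 : 0 ≤ M) (hM : K * v ^ 2 ≤ u * (M - u)) (k : ℕ) (hk : k ≤ K) :
    (u + v) ^ k + (u - v) ^ k ≤ 2 * M ^ k := by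
  induction k with
  | zero => norm_num
  | succ k ih =>
    have ih' := ih (by omega)
    obtain ⟨hA, hE, hI⟩ := rec_aux u v hu h1 h2 k
    rcases hu.eq_or_lt with h0 | hu0
    · have hv : v = 0 := by linarith
      rw [← h0, hv]
      simp only [add_zero, sub_zero, ne_eq, Nat.add_eq_zero_iff, one_ne_zero, and_false,
        not_false_eq_true, zero_pow]
      positivity
    · set p := (u + v) ^ k with hp
      set q := (u - v) ^ k with hq
      have e1 : (u + v) ^ (k + 1) + (u - v) ^ (k + 1) = u * (p + q) + v * (p - q) := by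
        rw [pow_succ, pow_succ]; ring
      rw [e1]
      have hkK : (k : ℝ) ≤ K := by exact_mod_cast (by omega : k ≤ K)
      have i1 : (k : ℝ) * v ^ 2 ≤ u * (M - u) :=
        (mul_le_mul_of_nonneg_right hkK (sq_nonneg v)).trans hM
      have i2 : k * v ^ 2 * (p + q) ≤ u * (M - u) * (p + q) := mul_le_mul_of_nonneg_right i1 hA
      have i3 : u * (u * (p + q) + v * (p - q)) ≤ u * (M * (p + q)) := by nlinarith
      have i4 : u * (p + q) + v * (p - q) ≤ M * (p + q) := le_of_mul_le_mul_left i3 hu0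
      calc u * (p + q) + v * (p - q) ≤ M * (p + q) := i4
        _ ≤ M * (2 * M ^ k) := mul_le_mul_of_nonneg_left ih' hM0
        _ = 2 * M ^ (k + 1) := by rw [pow_succ]; ring

/-- the scalar inequality -/
lemma scalar (a b : ℂ) (k : ℕ) :
    ‖a + b‖ ^ (2 * k) + ‖a - b‖ ^ (2 * k) ≤ 2 * (‖a‖ ^ 2 + (4 * k + 1) * ‖b‖ ^ 2) ^ k := by
  set v : ℝ := 2 * (a * (starRingEnd ℂ) b).re with hv
  have e1 : ‖a + b‖ ^ 2 = (‖a‖ ^ 2 + ‖b‖ ^ 2) + v := by
    rw [← Complex.normSq_eq_norm_sq, ← Complex.normSq_eq_norm_sq, ← Complex.normSq_eq_norm_sq,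
      Complex.normSq_add]
  have e2 : ‖a - b‖ ^ 2 = (‖a‖ ^ 2 + ‖b‖ ^ 2) - v := by
    rw [← Complex.normSq_eq_norm_sq, ← Complex.normSq_eq_norm_sq, ← Complex.normSq_eq_norm_sq,
      Complex.normSq_sub]
  have hv2 : v ^ 2 ≤ 4 * ‖a‖ ^ 2 * ‖b‖ ^ 2 := by
    have h1 : |(a * (starRingEnd ℂ) b).re| ≤ ‖a‖ * ‖b‖ := by
      refine (Complex.abs_re_le_norm _).trans ?_
      rw [norm_mul, RCLike.norm_conj]
    have h2 : (a * (starRingEnd ℂ) b).re ^ 2 ≤ (‖a‖ * ‖b‖) ^ 2 := by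
      rw [← sq_abs]
      exact pow_le_pow_left₀ (abs_nonneg _) h1 2
    rw [hv]
    nlinarith
  rw [pow_mul, pow_mul, e1, e2]
  refine rec_bound _ v _ k (by positivity) (by rw [← e1]; positivity) (by rw [← e2]; positivity)
    (by positivity) ?_ k le_rfl
  have hk : (0 : ℝ) ≤ k := Nat.cast_nonneg _
  have h3 : (k : ℝ) * v ^ 2 ≤ k * (4 * ‖a‖ ^ 2 * ‖b‖ ^ 2) := mul_le_mul_of_nonneg_left hv2 hk
  have h4 : 0 ≤ (k : ℝ) * (‖b‖ ^ 2 * ‖b‖ ^ 2) := by positivity
  nlinarith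

/-- square of the normalised norm of a function -/
noncomputable def S (N k : ℕ) [NeZero N] (H : ZMod N → ℂ) : ℝ :=
  ((∑ x : ZMod N, ‖H x‖ ^ (2 * k)) / N) ^ (1 / (k : ℝ))

lemma S_mono (N k : ℕ) [NeZero N] (H H' : ZMod N → ℂ)
    (h : ∑ x : ZMod N, ‖H x‖ ^ (2 * k) ≤ ∑ x : ZMod N, ‖H' x‖ ^ (2 * k)) : S N k H ≤ S N k H' := by
  unfold S
  gcongr

lemma power_mean (k : ℕ) (hk : 1 ≤ k) (s t : ℝ) (hs : 0 ≤ s) (ht : 0 ≤ t) :
    s ^ (1 / (k : ℝ)) + t ^ (1 / (k : ℝ)) ≤ 2 * ((s + t) / 2) ^ (1 / (k : ℝ)) := by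
  have hk' : (1 : ℝ) ≤ k := by exact_mod_cast hk
  have h0 : (0 : ℝ) ≤ 1 / k := by positivity
  have h1 : 1 / (k : ℝ) ≤ 1 := by
    rw [div_le_one (by linarith)]
    exact hk'
  have h := (Real.concaveOn_rpow h0 h1).2 (Set.mem_Ici.2 hs) (Set.mem_Ici.2 ht)
    (by norm_num : (0 : ℝ) ≤ 1 / 2) (by norm_num : (0 : ℝ) ≤ 1 / 2) (by norm_num)
  simp only [smul_eq_mul] at h
  have e : 1 / 2 * s + 1 / 2 * t = (s + t) / 2 := by ring
  rw [e] at h
  linarith

lemma smooth (N k : ℕ) [NeZero N] (hk : 1 ≤ k) (G F : ZMod N → ℂ) :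
    S N k (fun x => G x + F x) + S N k (fun x => G x - F x) ≤
      2 * (S N k G + (4 * k + 1) * S N k F) := by
  have hN : (0 : ℝ) < N := by exact_mod_cast Nat.pos_of_ne_zero (NeZero.ne N)
  have hk' : (1 : ℝ) ≤ k := by exact_mod_cast hk
  have hk0 : (0 : ℝ) < k := by linarith
  unfold S
  refine (power_mean k hk _ _ (by positivity) (by positivity)).trans ?_
  refine mul_le_mul_of_nonneg_left ?_ (by norm_num)
  have h1 : ((∑ x : ZMod N, ‖G x + F x‖ ^ (2 * k)) / N + (∑ x : ZMod N, ‖G x - F x‖ ^ (2 * k)) / N)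
      / 2 ≤ (∑ x : ZMod N, (‖G x‖ ^ 2 + (4 * k + 1) * ‖F x‖ ^ 2) ^ (k : ℝ)) / N := by
    rw [← add_div, ← sum_add_distrib, div_div, mul_comm (N : ℝ) 2, ← div_div]
    refine div_le_div_of_nonneg_right ?_ hN.le
    rw [div_le_iff₀ (by norm_num : (0 : ℝ) < 2), sum_mul]
    refine sum_le_sum fun x _ => ?_
    rw [Real.rpow_natCast, mul_comm _ (2 : ℝ)]
    exact scalar _ _ _
  refine (Real.rpow_le_rpow (by positivity) h1 (by positivity)).trans ?_
  rw [Real.div_rpow (by positivity) hN.le, Real.div_rpow (by positivity) hN.le,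
    Real.div_rpow (by positivity) hN.le]
  have hM := Real.Lp_add_le_of_nonneg (s := (univ : Finset (ZMod N))) (f := fun x => ‖G x‖ ^ 2)
    (g := fun x => (4 * k + 1) * ‖F x‖ ^ 2) hk' (fun x _ => by positivity)
    (fun x _ => by positivity)
  have e1 : (∑ x : ZMod N, (‖G x‖ ^ 2) ^ (k : ℝ)) = ∑ x : ZMod N, ‖G x‖ ^ (2 * k) := by
    refine sum_congr rfl fun x _ => ?_
    rw [Real.rpow_natCast, pow_mul]
  have e2 : (∑ x : ZMod N, ((4 * k + 1) * ‖F x‖ ^ 2) ^ (k : ℝ)) ^ (1 / (k : ℝ)) =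
      (4 * k + 1) * (∑ x : ZMod N, ‖F x‖ ^ (2 * k)) ^ (1 / (k : ℝ)) := by
    have e3 : (∑ x : ZMod N, ((4 * (k : ℝ) + 1) * ‖F x‖ ^ 2) ^ (k : ℝ)) =
        (4 * (k : ℝ) + 1) ^ (k : ℝ) * ∑ x : ZMod N, ‖F x‖ ^ (2 * k) := by
      rw [mul_sum]
      refine sum_congr rfl fun x _ => ?_
      rw [Real.mul_rpow (by positivity) (by positivity), Real.rpow_natCast (‖F x‖ ^ 2), pow_mul]
    rw [e3, Real.mul_rpow (by positivity) (by positivity), ← Real.rpow_mul (by positivity),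
      mul_one_div_cancel hk0.ne', Real.rpow_one]
  rw [e1, e2] at hM
  rw [mul_div_assoc', ← add_div]
  exact div_le_div_of_nonneg_right hM (by positivity)

/-- averaging over a subgroup -/
lemma avg (N k m : ℕ) [NeZero N] (hm : 0 < m) (h : ZMod N) (G F : ZMod N → ℂ)
    (hG : ∀ x, ∀ j : ℕ, G (x + j * h) = G x) (hF : ∀ x, ∑ j ∈ range m, F (x + j * h) = 0) :
    S N k G ≤ S N k (fun x => G x - F x) := by
  apply S_mono
  have hm' : (0 : ℝ) < m := by exact_mod_cast hm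
  have key : ∀ x, ‖G x‖ ^ (2 * k) ≤
      ∑ j ∈ range m, (1 / (m : ℝ)) * ‖G (x + j * h) - F (x + j * h)‖ ^ (2 * k) := by
    intro x
    have e1 : ∑ j ∈ range m, (G (x + j * h) - F (x + j * h)) = m * G x := by
      rw [sum_sub_distrib, hF, sub_zero, sum_congr rfl fun j _ => hG x j, sum_const, card_range,
        nsmul_eq_mul]
    have e2 : ‖G x‖ ≤ ∑ j ∈ range m, (1 / (m : ℝ)) * ‖G (x + j * h) - F (x + j * h)‖ := by
      rw [← mul_sum, one_div, inv_mul_eq_div, le_div_iff₀ hm']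
      calc ‖G x‖ * m = ‖(m : ℂ) * G x‖ := by
            rw [norm_mul, Complex.norm_natCast, mul_comm]
        _ = ‖∑ j ∈ range m, (G (x + j * h) - F (x + j * h))‖ := by rw [e1]
        _ ≤ _ := norm_sum_le _ _
    refine (pow_le_pow_left₀ (norm_nonneg _) e2 _).trans ?_
    refine Real.pow_arith_mean_le_arith_mean_pow _ _ _ (fun _ _ => by positivity) ?_
      (fun _ _ => norm_nonneg _) _
    rw [sum_const, card_range, nsmul_eq_mul, mul_one_div_cancel hm'.ne']
  refine (sum_le_sum fun x _ => key x).trans ?_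
  rw [sum_comm]
  have e3 : ∀ j ∈ range m, ∑ x : ZMod N, (1 / (m : ℝ)) *
      ‖G (x + j * h) - F (x + j * h)‖ ^ (2 * k) =
      (1 / (m : ℝ)) * ∑ x : ZMod N, ‖G x - F x‖ ^ (2 * k) := by
    intro j _
    rw [← mul_sum]
    congr 1
    exact Equiv.sum_comp (Equiv.addRight ((j : ZMod N) * h)) fun x => ‖G x - F x‖ ^ (2 * k)
  rw [sum_congr rfl e3, sum_const, card_range, nsmul_eq_mul, ← mul_assoc,
    mul_one_div_cancel hm'.ne', one_mul]

end MartAux

open MartAux Finset in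
theorem mart : TaskMart := by
  intro N k m _ T g f hk hm hmN hg hf
  obtain ⟨q, hq⟩ := hmN
  have hN0 : N ≠ 0 := NeZero.ne N
  have hq0 : 0 < q := by
    rcases Nat.eq_zero_or_pos q with h | h
    · exact absurd (by rw [hq, h, mul_zero]) hN0
    · exact h
  set h : ZMod N := (q : ZMod N) with hh
  have hG : ∀ x, ∀ j : ℕ, Fs N T g (x + j * h) = Fs N T g x := by
    intro x j
    unfold Fs
    refine sum_congr rfl fun n hn => ?_
    by_cases h0 : g n = 0
    · rw [h0]; simp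
    · obtain ⟨c, hc⟩ := hg n hn h0
      have : (n : ZMod N) * (x + j * h) = n * x := by
        have h1 : (n : ZMod N) * h = 0 := by
          rw [hh, ← Nat.cast_mul, hc]
          have : m * c * q = N * c := by rw [hq]; ring
          rw [this, Nat.cast_mul, ZMod.natCast_self, zero_mul]
        rw [mul_add, mul_left_comm, h1, mul_zero, add_zero]
      rw [this]
  have hF : ∀ x, ∑ j ∈ range m, Fs N T f (x + j * h) = 0 := by
    intro x
    unfold Fs
    rw [sum_comm]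
    refine sum_eq_zero fun n hn => ?_
    by_cases h0 : f n = 0
    · rw [h0]; simp
    · have hn' := hf n hn h0
      have h1 : (n : ZMod N) * h ≠ 0 := by
        rw [hh, ← Nat.cast_mul, Ne, ZMod.natCast_eq_zero_iff]
        intro hd
        rw [hq] at hd
        exact hn' (Nat.dvd_of_mul_dvd_mul_right hq0 hd)
      set ζ : ℂ := (ZMod.stdAddChar ((n : ZMod N) * h) : ℂ) with hζ
      have hζ1 : ζ ≠ 1 := by
        intro he
        apply h1
        apply ZMod.injective_stdAddChar (N := N)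
        rw [AddChar.map_zero_eq_one]
        exact he
      have hpow : ∀ j : ℕ, (ZMod.stdAddChar ((j : ZMod N) * ((n : ZMod N) * h)) : ℂ) = ζ ^ j := by
        intro j
        rw [hζ, ← AddChar.map_nsmul_eq_pow, nsmul_eq_mul]
      have hζm : ζ ^ m = 1 := by
        rw [← hpow]
        have : (m : ZMod N) * ((n : ZMod N) * h) = 0 := by
          rw [hh, mul_left_comm, ← Nat.cast_mul m q, ← hq, ZMod.natCast_self, mul_zero]
        rw [this, AddChar.map_zero_eq_one]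
      have hsum : ∑ j ∈ range m, ζ ^ j = 0 := by
        have := mul_geom_sum ζ m
        rw [hζm, sub_self] at this
        exact (mul_eq_zero.1 this).resolve_left (sub_ne_zero.2 hζ1)
      have e : ∀ j ∈ range m, (f n : ℂ) * (ZMod.stdAddChar ((n : ZMod N) * (x + (j : ZMod N) * h)) : ℂ) =
          (f n : ℂ) * (ZMod.stdAddChar ((n : ZMod N) * x) : ℂ) * ζ ^ j := by
        intro j _
        rw [← hpow, mul_assoc, ← AddChar.map_add_eq_mul]
        congr 2
        ring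
      rw [sum_congr rfl e, ← mul_sum, hsum, mul_zero]
  have hadd : (fun x => Fs N T g x + Fs N T f x) = Fs N T (fun n => g n + f n) := by
    funext x
    unfold Fs
    rw [← sum_add_distrib]
    refine sum_congr rfl fun n _ => ?_
    push_cast
    ring
  have i1 := smooth N k hk (Fs N T g) (Fs N T f)
  have i2 := avg N k m hm h (Fs N T g) (Fs N T f) hG hF
  rw [hadd] at i1
  change S N k (Fs N T (fun n => g n + f n)) ≤ S N k (Fs N T g) + (8 * k + 2) * S N k (Fs N T f)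
  linarith

end H375.FP
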